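import Pool.Agent.Y691.TU.Eul

/-!
# Local Euler factors and cubic hypersurfaces
-/

set_option autoImplicit false

open CategoryTheory CategoryTheory.Limits AlgebraicGeometry Pool.Agent.Y116.UV
  Pool.Agent.Y101.Th Pool.Agent.Y691.TU

namespace Pool.Agent.Results.MP_898f40_nt.CubicHypersurfaces

/-- **Local Euler factors and cubic hypersurfaces.** Let `P i X p ℓ = det (1 - F_p T | H^i(X, ℚ_ℓ)^{I_p})`
be the local factors of the smooth projective schemes over `ℚ` and `E w X p ℓ` the weight graded
Euler factors of the separated schemes of finite type over `ℚ`, with their known properties;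
`surfaces` is the known case of the schemes of dimension at most two.

* For all trilinear forms `t` over `ℚ` with a block of at most four variables all weight graded Euler
  factors of the smooth affine cubic hypersurface `t(x, y, z) = 1` have rational coefficients which do
  not depend on `ℓ`.
* For each `n` the polynomials `P i X p ℓ` have integral coefficients which do not depend on `ℓ` for all
  smooth projective `X` of dimension at most `n` if and only if the weight graded Euler factors of
  `t(x, y, z) = 1` have rational coefficients which do not depend on `ℓ` for all `t` with a block of at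
  most `n + 2` variables, and if and only if this is true for the hypersurfaces
  `∑_{(i, j, l) ∈ H} x_i y_j z_l = 1` for all sets `H` with `n + 2` variables `z_l`.
* The conjecture is true for all smooth projective `X` if and only if the weight graded Euler factors
  of `t(x, y, z) = 1` have rational coefficients which do not depend on `ℓ` for all `t`. -/
theorem result {P : ℕ → Sch ℚ → ∀ _ ℓ : Nat.Primes, Polynomial ℚ_[ℓ]}
    {E : ℤ → Sch ℚ → EulerValues} (hk : Resolution ℚ) (hE : IsEuler P E)
    (surfaces : ∀ X : Sch ℚ, SmProj X → topologicalKrullDim X.left ≤ 2 → ∀ i p,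
      IntegralIndep p (P i X p)) :
    (∀ (a b c : ℕ) (t : Fin a → Fin b → Fin c → ℚ), (a ≤ 4 ∨ b ≤ 4 ∨ c ≤ 4) →
      ∀ w p, RationalIndep p (fun ℓ => (E w (hypS t) p ℓ : PowerSeries ℚ_[ℓ]))) ∧
    (∀ n : ℕ,
      ((∀ X : Sch ℚ, SmProj X → topologicalKrullDim X.left ≤ n → ∀ i p,
          IntegralIndep p (P i X p)) ↔
        ∀ (a b c : ℕ) (t : Fin a → Fin b → Fin c → ℚ), (a ≤ n + 2 ∨ b ≤ n + 2 ∨ c ≤ n + 2) →
          ∀ w p, RationalIndep p (fun ℓ => (E w (hypS t) p ℓ : PowerSeries ℚ_[ℓ]))) ∧
      ((∀ X : Sch ℚ, SmProj X → topologicalKrullDim X.left ≤ n → ∀ i p,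
          IntegralIndep p (P i X p)) ↔
        ∀ (a b : ℕ) (H : Finset (Fin a × Fin b × Fin (n + 2))) (w : ℤ) (p : Nat.Primes),
          RationalIndep p (fun ℓ => (E w (tripS ℚ H) p ℓ : PowerSeries ℚ_[ℓ])))) ∧
    ((∀ X : Sch ℚ, SmProj X → ∀ i p, IntegralIndep p (P i X p)) ↔
      ∀ (a b c : ℕ) (t : Fin a → Fin b → Fin c → ℚ) (w : ℤ) (p : Nat.Primes),
        RationalIndep p (fun ℓ => (E w (hypS t) p ℓ : PowerSeries ℚ_[ℓ]))) := by
  have hs : ∀ (n : ℕ), (∀ X : Sch ℚ, SmProj X → topologicalKrullDim X.left ≤ n → ∀ i p,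
      IntegralIndep p (P i X p)) ↔
      ∀ X : Sch ℚ, SmProj X → topologicalKrullDim X.left ≤ n → ∀ w, E w X ∈ eulerSub := fun n =>
    forall_congr' fun X => forall_congr' fun hX => forall_congr' fun _ => (euler_smooth hE hX).symm
  have hp : ∀ w, E w (aff ℚ ℚ) ∈ eulerSub := inv_point hk hE.inv fun X hX hd =>
    (euler_smooth hE hX).mpr (surfaces X hX (hd.trans (by norm_num)))
  have hd := fun n => (hs n).trans (inv_dim hk hE.inv twist_mem hp n)
  refine ⟨(hd 2).mp (by exact_mod_cast surfaces), fun n => ⟨hd n,
    (hs n).trans (inv_dim_frac isFrac_rat hk hE.inv twist_mem hp n)⟩, ?_⟩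
  exact (forall_congr' fun X => forall_congr' fun hX => (euler_smooth hE hX).symm).trans
    (inv_all hk hE.inv twist_mem hp)

end Pool.Agent.Results.MP_898f40_nt.CubicHypersurfaces
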