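import Pool.Agent.Y143.Par.EulerSum

/-!
# Local Euler factors of fibre powers of elliptic curves over curves
-/

open Pool.Agent.Y143 Pool.Agent.Y143.Par

universe u v

/-- Integrality and `ℓ`-independence of the local Euler factors at all primes `p` (of good or bad
reduction) of finite sums of Tate twists of parabolic cohomology groups
`H^1(C_{\bar ℚ}, j_* Sym^k R^1 f_*)` of elliptic curves over curves and of Artin-Tate
representations, for example of the cohomology of fibre powers: the characteristic polynomial of the
Frobenius on the invariants of the inertia group (the part of `ker N` fixed by the averaging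
projector `π` of the finite quotient of the inertia group acting on the Weil-Deligne representation)
has integral coefficients which do not depend on the coefficient field `Ω`. -/
theorem Pool.Agent.Results.MP_898f40_nt.FibrePowers.result {ι : Type} [Finite ι]
    (S : ι → EulerData ℤ) (t : ι → ℕ) (A : Polynomial ℤ) {p : ℕ} (hp : p ≠ 0) :
    ∃ G : Polynomial ℤ, ∀ (Ω : Type u) [Field Ω] [CharZero Ω] (R : Type) [Field R]
      [LinearOrder R] [IsStrictOrderedRing R] [Algebra R Ω] (q₀ : ℕ)
      (X : ∀ i, Realization.{u, v} (S i) Ω R q₀ p) (V₀ V : Type v) [AddCommGroup V₀]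
      [Module Ω V₀] [Module.Finite Ω V₀] [AddCommGroup V] [Module Ω V] [Module.Finite Ω V]
      (F₀ π₀ : Module.End Ω V₀) (F N π : Module.End Ω V), IsProj π₀ F₀ → HasPoly F₀ π₀ ⊤ A →
        IsTwistedSum p (fun i => (X i).P.H) (fun i => (X i).F) (fun i => (X i).P.N)
          (fun i => (X i).π) t F₀ π₀ F N π → HasPoly F π (LinearMap.ker N) G := by
  cases nonempty_fintype ι
  refine ⟨A * ∏ i, ((S i).G p).scaleRoots ((p : ℤ) ^ t i), ?_⟩
  intro Ω _ _ R _ _ _ _ q₀ X V₀ V _ _ _ _ _ _ F₀ π₀ F N π h₀ hA hV
  exact euler_sum X h₀ hA hV hp (by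
    intro a b h
    simpa using h)
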