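import Pool.Agent.Y712.AJ.LMain

/-!
# Independence of `ℓ` of the local factors: rational varieties in the middle degree

Let `p` be a prime, `D` its decomposition group, `I` the inertia group, `Φ` a geometric Frobenius element
and `H ℓ X i = H^i(X ⊗ Q̄, ℚ_ℓ)`, for the primes `ℓ ≠ p`, the smooth projective varieties `X` over `ℚ`
(of good or bad reduction at `p`) and all `i`. We prove that the following are equivalent.

1. For all `X` and all `i` the local factor `det (1 - Φ T | H^i(X, ℚ_ℓ)^I)` has rational coefficients and
   does not depend on `ℓ`.
2. This is true for the **middle degree** `i = dim B` of the **rational** varieties `B` of **odd**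
   dimension, and even only of the blow-ups `B` of projective spaces with one smooth centre.
3. The same for the rational varieties of even dimension.

Proof. If `X` is the centre of the blow-up `B` of the projective space of dimension `N`, then `H^N(B)` is
the sum of all the groups `H^j(X)(-(N-j)/2)`, `j ≡ N` modulo `2`, up to a Tate twist of `ℚ_ℓ`. So 2 or 3
gives only the product of the local factors of `X` in all the degrees of one parity, with shifts; the
factors cannot be separated by their weights if the reduction is bad. But one can replace `X` by its
smooth linear section of dimension `i + 1`: there the degrees up to `i` are those of `X`, and each of them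
occurs twice by the hard Lefschetz theorem; this gives the factor of degree `i` by induction. Finally, one
passes to the other parity with the product of `X` and an elliptic curve with good ordinary reduction
at `p`: the traces of the powers of its Frobenius element are not zero.
-/

set_option autoImplicit false

open Pool.Agent.H914 VarClass Obj Pool.Agent.Y712.LI

universe u

namespace Pool.Agent.Results.MP_898f40_nt.MiddleDegree

/-- **The local factors of all smooth projective varieties, in all degrees, are independent of `ℓ` if and
only if this is true for the middle degree of the rational varieties of odd (or of even) dimension.** -/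
theorem result {k : Type u} [Field k] {𝒱 : VarClass k} {Λ : Type} {T : Data 𝒱 Λ} {p : ℕ}
    (hp : p ≠ 0) {R : 𝒱.Obj → Prop} (hT : IsCoh T p R) :
    List.TFAE [∀ (X : 𝒱.Obj) (i : ℤ), Indep T X i,
      ∀ B : 𝒱.Obj, R B → Odd B.dim → Indep T B B.dim,
      ∀ B : 𝒱.Obj, R B → Even B.dim → Indep T B B.dim] :=
  independence hp hT

end Pool.Agent.Results.MP_898f40_nt.MiddleDegree
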