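import Pool.Agent.Y456.LG.Simp
import Pool.Agent.Y691.TU.Eul

/-!
# Independence of `ℓ` of the local factors and sparse linear sections of `GL_m`

A sparse linear section of `GL_m` over `ℚ` is the scheme `U_M` (`secGL M`) of the points `x` of the affine
space `𝔸^d` such that the matrix `M(x)` is invertible, where `M` is a square matrix each of whose entries is
`0`, `1` or one of the `d` variables, in which each variable occurs, with at most three nonzero entries in
every row and in every column (`IsPat {0, 1} M`, `Thin M`). It is open in the affine space.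

`P i X p ℓ` is the characteristic polynomial `det(1 - F_p T | H^i(X, ℚ_ℓ)^{I_p})`, for `X` smooth and
projective over `ℚ`, and `E w X p ℓ` is the alternating product, over `j`, of the corresponding polynomials
of `gr^W_w H^j_c(X, ℚ_ℓ)`, for all `X` of finite type; they are given by their known properties (`IsEuler`).

1. For all square matrices `M` of polynomials in three variables the power series `E w U_M p ℓ` have rational
   coefficients which are independent of `ℓ`; this follows from the known case of surfaces (`surfaces`).
2. For each `n`, the polynomials `P i X p ℓ` have integral coefficients independent of `ℓ`, for all smooth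
   projective schemes of dimension at most `n` and all `p`, if and only if the power series `E w U_M p ℓ`
   have rational coefficients independent of `ℓ`, for all sparse linear sections `U_M` of dimension `n + 1`.
-/

set_option autoImplicit false

open CategoryTheory CategoryTheory.Limits AlgebraicGeometry MvPolynomial
  Pool.Agent.Y116.UV Pool.Agent.Y101.Th Pool.Agent.Y691.TU Pool.Agent.Z125.UN Pool.Agent.Y456.LG

namespace Pool.Agent.Results.MP_898f40_nt.SparseLinearSections

/-- Independence of `ℓ` of the local factors of the smooth projective varieties is a question about the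
sparse linear sections of `GL_m`, dimension by dimension. -/
theorem result {P : ℕ → Sch ℚ → ∀ _ ℓ : Nat.Primes, Polynomial ℚ_[ℓ]}
    {E : ℤ → Sch ℚ → EulerValues} (hk : Resolution ℚ) (hE : IsEuler P E)
    (surfaces : ∀ X : Sch ℚ, SmProj X → topologicalKrullDim X.left ≤ 2 → ∀ i p,
      IntegralIndep p (P i X p)) :
    (∀ (m : ℕ) (M : Matrix (Fin m) (Fin m) (MvPolynomial (Fin 3) ℚ)) (w : ℤ) (p : Nat.Primes),
      RationalIndep p (fun ℓ => (E w (secGL M) p ℓ : PowerSeries ℚ_[ℓ]))) ∧
    ∀ n : ℕ,
      (∀ X : Sch ℚ, SmProj X → topologicalKrullDim X.left ≤ n → ∀ i p,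
          IntegralIndep p (P i X p)) ↔
        ∀ (m : ℕ) (M : Matrix (Fin m) (Fin m) (MvPolynomial (Fin (n + 1)) ℚ)),
          IsPat ({0, 1} : Set ℚ) M → Thin M → ∀ (w : ℤ) (p : Nat.Primes),
            RationalIndep p (fun ℓ => (E w (secGL M) p ℓ : PowerSeries ℚ_[ℓ])) := by
  have hS : Enough ({0, 1} : Set ℚ) := enough_frac isFrac_rat
  have hs : ∀ (n : ℕ), (∀ X : Sch ℚ, SmProj X → topologicalKrullDim X.left ≤ n → ∀ i p,
      IntegralIndep p (P i X p)) ↔
      ∀ X : Sch ℚ, SmProj X → topologicalKrullDim X.left ≤ n → ∀ w, E w X ∈ eulerSub := fun n =>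
    forall_congr' fun X => forall_congr' fun hX => forall_congr' fun _ => (euler_smooth hE hX).symm
  have hp : ∀ w, E w (aff ℚ ℚ) ∈ eulerSub := inv_point hk hE.inv fun X hX hd =>
    (euler_smooth hE hX).mpr (surfaces X hX (hd.trans (by norm_num)))
  have hB := bnd_inv hE.inv twist_mem hp
  have hup : ∀ n : ℕ, (∀ X : Sch ℚ, SmProj X → topologicalKrullDim X.left ≤ n → ∀ i p,
      IntegralIndep p (P i X p)) →
      ∀ (m : ℕ) (M : Matrix (Fin m) (Fin m) (MvPolynomial (Fin (n + 1)) ℚ)) (w : ℤ),
        E w (secGL M) ∈ eulerSub := by
    intro n h m M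
    refine away_of_dim hB (n := n) (fun A _ _ _ hA => ?_) M.det
    refine of_smproj hk hB n ((hs n).mp h) (aff ℚ A) (ft_aff True) ?_
    rw [topDim_aff]
    exact hA
  refine ⟨fun m M w p => hup 2 (by exact_mod_cast surfaces) m M w p, fun n => ⟨fun h m M _ _ w p =>
    hup n h m M w p, fun h => (hs n).mpr fun X hX hd => ?_⟩⟩
  exact dim_of_thin hS hB (fun m M hM hT w p => h m M hM hT w p) X hX.ft hd

end Pool.Agent.Results.MP_898f40_nt.SparseLinearSections
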